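import Pool.Agent.KS6_32.CG.N

/-!
# The co-girth of the generic rigidity matroid is NP-hard to compute in every dimension

Definitions (`Pool/Agent/KS6_32/CG/D.lean`): `rigidityMatrix G p` (one row per edge, `d` columns per
vertex), `Generic p` (the coordinates are algebraically independent over `ℚ`), `Rigid d G` (at generic
realizations in `ℝ^d` the rank is at least `binom(|V|, 2)` if `|V| ≤ d` and `d |V| - binom(d+1, 2)`
if `|V| > d`) and `cogirth d G` (the least number of edges whose deletion makes `G` non-rigid in
`ℝ^d`). Complexity notions are those of `Pool.Agent.NPC.Defs`: polynomial time is Mathlib's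
`Turing.TM2ComputableInPolyTime` on bit strings, `NP` is defined by certificates, hardness is under
polynomial-time many-one reductions; `graph (n, E)` is the graph on `{0, …, n-1}` with edge list `E`.

Idea. Coning preserves the co-girth: if a graph `G` is rigid in `ℝ^d` and fewer than `c_d(G)` edges of
its cone are deleted, of them those to the vertices `u ∈ U`, choose an order of the vertices whose
largest element is not in `U` such that all others have a larger neighbour `w(u)` in what is left of
`G`, and put the vertices at heights `β` of quickly growing sizes in this order. The conditions lost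
with the cone edges of `U` are then close to those of the edges `u w(u)`, and these edges can be
deleted from `G` as well without loss of rigidity. So the planar case, which is the theorem
`CogirthNPHard` of the library, can be lifted to all dimensions.
-/

namespace Pool.Agent.Results.MP_702614_lc.AllDimensions

open Pool.Agent.NPC Pool.Agent.KS6_32.CG
open Pool.Agent.H632R2.Cogirth (graph IsCode)

/-- deleting the apex of a cone -/
theorem cone_general (d : ℕ) (hd : 1 ≤ d) (W : Type) [Fintype W] [DecidableEq W]
    (G : SimpleGraph W) (v : W) (hv : ∀ w, w ≠ v → G.Adj v w) (h3 : 3 ≤ Fintype.card W)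
    (h4 : d + 1 ≤ Fintype.card W) :
    (Rigid (d + 1) G ↔ Rigid d (G.comap (Subtype.val : {w // w ≠ v} → W))) ∧
      cogirth (d + 1) G = cogirth d (G.comap (Subtype.val : {w // w ≠ v} → W)) := by
  let e : Option {w : W // w ≠ v} ≃ W := Equiv.optionSubtypeNe v
  have hc : Fintype.card {w : W // w ≠ v} + 1 = Fintype.card W := by
    rw [← Fintype.card_option]
    exact Fintype.card_congr e
  have hC : ∀ u, (G.comap e).Adj none (some u) := by
    intro u
    rw [SimpleGraph.comap_adj]
    have h1 : e none = v := Equiv.optionSubtypeNe_none v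
    have h2 : e (some u) = u.1 := Equiv.optionSubtypeNe_some v u
    rw [h1, h2]
    exact hv _ u.2
  have hcomap : (G.comap e).comap some = G.comap (Subtype.val : {w // w ≠ v} → W) := by
    ext a b
    rw [SimpleGraph.comap_adj, SimpleGraph.comap_adj, SimpleGraph.comap_adj]
    have h2 : ∀ u, e (some u) = u.1 := fun u => Equiv.optionSubtypeNe_some v u
    rw [h2, h2]
  have e1 := rigid_cone_iff (d := d) (by omega) hd (by omega) _ hC
  have e2 := cogirth_cone (d := d) (by omega) hd (by omega) _ hC
  rw [hcomap] at e1 e2
  rw [rigid_comap] at e1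
  rw [cogirth_comap] at e2
  exact ⟨e1, e2⟩

/-- **The co-girth of the generic rigidity matroid in all dimensions.**
(1) For `d = 2` rigidity is the notion of the problem.
(2) Let `d ≥ 1` and let `v` be a vertex of `G` which is adjacent to all other vertices (`G` is the cone
over `G - v`), where `G` has at least three and at least `d + 1` vertices. Then `G` is rigid in
`ℝ^(d+1)` if and only if `G - v` is rigid in `ℝ^d`, and `c_{d+1}(G) = c_d(G - v)`.
(3) For every `d ≥ 2` it is NP-hard to decide whether `c_d(G) ≤ k`, for graphs `G` which are rigid in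
`ℝ^d`; and if some polynomial-time algorithm computes `c_d(G)` for all graphs `G` (with at least `d`
vertices) which are rigid in `ℝ^d`, then every language in `NP` is decidable in polynomial time. -/
theorem result :
    (∀ (V : Type) [Fintype V] [DecidableEq V] (G : SimpleGraph V),
      Rigid 2 G ↔ ∀ p : V → Fin 2 → ℝ, Generic p →
        min ((Fintype.card V).choose 2) (2 * Fintype.card V - 3) ≤ (rigidityMatrix G p).rank) ∧
    (∀ d : ℕ, 1 ≤ d → ∀ (W : Type) [Fintype W] [DecidableEq W] (G : SimpleGraph W) (v : W),
      (∀ w, w ≠ v → G.Adj v w) → 3 ≤ Fintype.card W → d + 1 ≤ Fintype.card W →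
        (Rigid (d + 1) G ↔ Rigid d (G.comap (Subtype.val : {w // w ≠ v} → W))) ∧
        cogirth (d + 1) G = cogirth d (G.comap (Subtype.val : {w // w ≠ v} → W))) ∧
    (∀ d : ℕ, 2 ≤ d →
      NPHardP (fun I : (ℕ × List (ℕ × ℕ)) × ℕ =>
        IsCode I.1 ∧ d ≤ I.1.1 ∧ Rigid d (graph I.1) ∧ cogirth d (graph I.1) ≤ I.2) ∧
      ((∃ A : List Bool → List Bool, PolyTime A ∧
          ∀ I : ℕ × List (ℕ × ℕ), IsCode I → d ≤ I.1 → Rigid d (graph I) →
            A (bits I) = bits (cogirth d (graph I))) →
        ∀ L : Set (List Bool), InNP L → InP L)) := by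
  refine ⟨fun V _ _ G => (rigidInPlane_iff G).symm, cone_general, ?_⟩
  intro d hd
  obtain ⟨m, rfl⟩ := Nat.exists_eq_add_of_le' hd
  refine ⟨?_, ?_⟩
  · refine HardI.toNPHardP ?_
    intro L hL
    obtain ⟨f, hf, hpr, hfL⟩ := hardPr_dim m L hL
    exact ⟨f, hf, fun x => (hfL x).trans
      ⟨fun h => ⟨(hpr x).1, (hpr x).2.1, (hpr x).2.2, h⟩, fun h => h.2.2.2⟩⟩
  · rintro ⟨A, hA, hc⟩
    exact Pool.Agent.NPC.H598R2.collapse_fun (c := fun I => cogirth (m + 2) (graph I))
      (hardPr_dim m) (fun I _ => Iff.rfl) hA (fun I hI => hc I.1 hI.1 hI.2.1 hI.2.2)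

end Pool.Agent.Results.MP_702614_lc.AllDimensions
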